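import Pool.Agent.W418.FMK.Final

/-!
MP_731e7b_an: a point-spectrum criterion under which no nonzero function with finite-measure
support tiles with a given set of bounded density, and its application to a family of
Kurasov-Sarnak sets.
-/

set_option autoImplicit false

open MeasureTheory Filter Topology Complex

namespace Pool.Agent.Results.MP_731e7b_an.KurasovSarnakSets

/-- Bounded density: `[x, x+1)` contains at most `C` points of `L`, for every real `x`. -/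
def BoundedDensity (L : Set ℝ) : Prop :=
  ∃ C : ℕ, ∀ x : ℝ, (L ∩ Set.Ico x (x + 1)).Finite ∧ (L ∩ Set.Ico x (x + 1)).ncard ≤ C

/-- `f` tiles at level `w` with translation set `L`. -/
def Tiles (f : ℝ → ℂ) (L : Set ℝ) (w : ℂ) : Prop :=
  ∀ᵐ x : ℝ, Summable (fun l : L => f (x - l)) ∧ ∑' l : L, f (x - l) = w

/-- The mean `(1/T) ∑_{l ∈ L ∩ [0,T)} exp(-2 π i s l)`. -/
noncomputable def expMean (L : Set ℝ) (s : ℝ) (T : ℕ) : ℂ :=
  (1 / (T : ℂ)) * ∑ᶠ l ∈ L ∩ Set.Ico (0 : ℝ) T, Complex.exp (-(2 * Real.pi * s * l : ℝ) * I)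

/-- Periodic structure: a finite disjoint union of arithmetic progressions `a ℤ + b`. -/
def PeriodicStructure (L : Set ℝ) : Prop :=
  ∃ (n : ℕ) (a b : Fin n → ℝ), (∀ i, 0 < a i) ∧
    (Pairwise fun i j => Disjoint {x : ℝ | ∃ k : ℤ, x = a i * k + b i}
      {x : ℝ | ∃ k : ℤ, x = a j * k + b j}) ∧
    L = ⋃ i, {x : ℝ | ∃ k : ℤ, x = a i * k + b i}

/-- The Kurasov-Sarnak set `{x | sin (π (1+α) x) = r sin (π (α-1) x)}`. -/
def kurasovSarnak (α r : ℝ) : Set ℝ :=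
  {x | Real.sin (Real.pi * ((1 + α) * x)) = r * Real.sin (Real.pi * ((α - 1) * x))}

theorem result :
    (∀ L : Set ℝ, BoundedDensity L → ∀ d : ℝ, 0 < d → ∀ ξ : ℕ → ℝ,
      (∀ i j : ℕ, i ≠ j → ∀ m : ℤ, ξ i - ξ j ≠ m * d) →
      (∀ i, {j : ℤ | Tendsto (expMean L (ξ i + j * d)) atTop (𝓝 0)}.Finite) →
      ∀ f : ℝ → ℂ, Integrable f → volume {x | f x ≠ 0} < ⊤ → ∀ w : ℂ, Tiles f L w →
        f =ᵐ[volume] 0) ∧
    (∀ α r : ℝ, 0 < α → Irrational α → |r| < 1 → Transcendental ℤ r →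
      BoundedDensity (kurasovSarnak α r) ∧ ¬ PeriodicStructure (kurasovSarnak α r) ∧
      ∀ f : ℝ → ℂ, Integrable f → volume {x | f x ≠ 0} < ⊤ → ∀ w : ℂ,
        Tiles f (kurasovSarnak α r) w → f =ᵐ[volume] 0) := by
  refine ⟨?_, ?_⟩
  · intro L hL d hd ξ hξ h f hf hs w ht
    exact FMT.criterion' L hL d hd ξ hξ h f hf hs w ht
  · intro α r hα hirr hr hT
    have h := FMT.ks_main' α r hα hirr hr hT
    exact ⟨h.1, FMT.not_periodic _ h.2, h.2⟩

end Pool.Agent.Results.MP_731e7b_an.KurasovSarnakSets
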